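import Pool.Agent.AT10.Stmts2
import Pool.Agent.Helper25_KF.Idm

/-!
# Squad AT10, row STR: the theorem of Broué and Puig for the central subgroup `Z`
-/

open scoped BigOperators

noncomputable section

namespace Pool.Agent.PP.T10.H81

open Pool.Agent.Helper51_AWC Pool.Agent.Helper79_WRA Pool.Agent.PP Pool.Agent.PP.KF
open Pool.Agent.PP.K9 Pool.Agent.PP.K9.H97 Pool.Agent.PP.H75 Pool.Agent.PP.T3 Pool.Agent.PP.T2
open Pool.Agent.PP.T5 Pool.Agent.PP.TB
open Pool.Agent.PP.T8 (rs pw fv rd Ip Rv)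

attribute [local instance] Ideal.Quotient.field

/-- the inverse of a linear character -/
def inv' {Z : Type} [Group Z] (lam : Z →* ℂ) : Z →* ℂ where
  toFun z := lam z⁻¹
  map_one' := by rw [inv_one, map_one]
  map_mul' x y := by rw [mul_inv_rev, map_mul, mul_comm]

theorem str (sbe : SbeStmt) (lcs : LcsStmt) (cht : ChtStmt) (frb : FrbStmt) (lnk : LnkStmt) :
    StrStmt := by
  intro ℓ hℓ M _ hM G _ _ e V Z γ b hZ hLo χ hχ ψ hψ lam
  have := Fintype.ofFinite G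
  have := Fintype.ofFinite Z
  set nu : Z →* ℂ := inv' lam with hnu
  have hV : (Nat.card Z : ℂ) ≠ 0 := by exact_mod_cast Nat.card_pos.ne'
  obtain ⟨k, hk⟩ := Subgroup.card_dvd_of_le hZ.le
  have hq : (Nat.card V : ℂ) / Nat.card Z = (k : ℂ) := by
    rw [hk]
    push_cast
    field_simp
  have hnur : ∀ z : Z, nu z ∈ RM M := by
    intro z
    apply RM_of_int
    have h1 : (nu z) ^ Nat.card Z = 1 := by
      rw [← map_pow, pow_card_eq_one', map_one]
    refine IsIntegral.of_pow (Nat.card_pos (α := Z)) ?_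
    rw [h1]
    exact isIntegral_one
  have hc : ∀ z : Z, cn V Z γ nu z ∈ RM M := by
    intro z
    unfold cn
    rw [hq]
    exact (RM M).mul_mem ((RM M).mul_mem (natCast_mem (RM M) k) (natCast_mem (RM M) _)) (hnur z)
  have h1 := sbe ℓ M hM G e V Z γ b hZ
  have h2 : Hc M ℓ (cn V Z γ nu) (fun (z : Z) (u : G) => sb b (z : G) u) χ :=
    cht ℓ M hM G Z (cn V Z γ nu) _ h1.1 χ hχ.1
      fun P hP i hi hbr => lcs ℓ M hM G e V Z γ b hZ hLo nu χ hχ.1 P hP i hi hbr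
  have h3 := frb ℓ M hM G Z (cn V Z γ nu) _ h1.1 hc χ hχ.1 h2 ψ hψ.1
  rw [lnk ℓ M hM G e V Z γ b hZ (cn V Z γ nu) χ hχ.1 ψ hψ.1] at h3
  have h4 : (Nat.card Z : ℂ)⁻¹ * ∑ᶠ v : Z, Az M ℓ V Z γ b χ ψ v * lam v⁻¹ =
      ∑ᶠ z : Z, cn V Z γ nu z * mm M ℓ (Cu (z : G)) z (b z) χ ψ := by
    rw [finsum_eq_sum_of_fintype, finsum_eq_sum_of_fintype, Finset.mul_sum]
    refine Finset.sum_congr rfl fun z _ => ?_
    have h5 : nu z = lam z⁻¹ := rfl
    unfold Az cn
    rw [h5]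
    field_simp
  rw [h4]
  exact h3

end Pool.Agent.PP.T10.H81
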